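import Pool.Agent.H817R5.EP.Stubs

/-!
# Erdos problem 676 (MP_1626ca_nt): task BASE
-/

set_option autoImplicit false

open Finset

namespace Pool.Agent.H184R5.EP

open Pool.Agent.H817R5.EP Filter

/-- number of `y` in `[X, 2 X)` such that `y + s` is hit by `p` (enlarged residue class) -/
theorem base_cnt (hcnt : St_CNT) (X s p : ℕ) (hp : p.Prime) (hs : s < p) :
    (((Ico X (2 * X)).filter (fun y => (y + s) % p ^ 2 < p + s)).card : ℝ) ≤
      ((p : ℝ) + s) * (X + (p : ℝ) ^ 2) / (p : ℝ) ^ 2 := by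
  have hp0 : (0 : ℝ) < p := by exact_mod_cast hp.pos
  have h1 : (((Ico X (2 * X)).filter (fun y => (y + s) % p ^ 2 < p + s)).card : ℝ) =
      ∑ y ∈ Ico (X + s) (X + s + X), ind (fun _ => p + s) {p} y := by
    have h2 : X + s + X = 2 * X + s := by ring
    rw [h2, ← Finset.sum_Ico_add', Finset.card_filter, Nat.cast_sum]
    refine Finset.sum_congr rfl fun y _ => ?_
    unfold ind
    by_cases h : (y + s) % p ^ 2 < p + s
    · simp [h]
    · simp [h]
  have hadm : Adm (fun _ => p + s) {p} p := by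
    intro q hq
    rw [Finset.mem_singleton] at hq
    subst hq
    refine ⟨hp, le_rfl, ?_, ?_⟩
    · have := hp.pos
      show 1 ≤ q + s
      omega
    · show q + s ≤ 2 * q
      omega
  have h3 := hcnt (fun _ => p + s) {p} {p} p (X + s) X hadm (Finset.Subset.refl _)
  have h4 : den (fun _ => p + s) {p} = ((p : ℝ) + s) / (p : ℝ) ^ 2 := by
    unfold den
    rw [Finset.prod_singleton]
    push_cast
    rfl
  rw [Finset.prod_singleton, h4, ← h1] at h3
  have h5 := (abs_le.1 h3).2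
  push_cast at h5
  have h6 : ((p : ℝ) + s) * (X + (p : ℝ) ^ 2) / (p : ℝ) ^ 2 =
      X * (((p : ℝ) + s) / (p : ℝ) ^ 2) + (p + s) := by
    field_simp
  rw [h6]
  linarith

/-- a window which is hit by `p` -/
theorem base_hit (y j s p : ℕ) (hp : p.Prime) (hj : j ≤ s) (hs : s < p)
    (h : (y + j) % p ^ 2 < p) : (y + s) % p ^ 2 < p + s := by
  have hp2 : 2 ≤ p := hp.two_le
  have h1 : y + s = (y + j) + (s - j) := by omega
  have h2 : (s - j) % p ^ 2 = s - j := by
    apply Nat.mod_eq_of_lt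
    nlinarith
  have h3 : (y + j) % p ^ 2 + (s - j) < p ^ 2 := by
    have h4 : (y + j) % p ^ 2 + (s - j) < 2 * p := by omega
    nlinarith
  rw [h1, Nat.add_mod, h2, Nat.mod_eq_of_lt h3]
  omega

theorem base_num : (1001 / 1000 : ℝ) * (1001 / 1000) * (Real.log (499 / 1000 / (1 / 4)) +
    1 / 10000) + 8 * (Real.log (501 / 1000 / (499 / 1000)) + 1 / 10000) ≤ 3 / 4 := by
  have h1 : Real.log (499 / 1000 / (1 / 4)) ≤ Real.log 2 :=
    Real.log_le_log (by norm_num) (by norm_num)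
  have h2 := Real.log_two_lt_d9
  have h3 : Real.log (501 / 1000 / (499 / 1000)) ≤ 501 / 1000 / (499 / 1000) - 1 :=
    Real.log_le_sub_one_of_pos (by norm_num)
  norm_num at h3 ⊢
  nlinarith

theorem base (hcnt : St_CNT) (hmass : St_MASS) : St_BASE := by
  classical
  intro ε hε hε4
  obtain ⟨X1, h1⟩ := hmass (1 / 4) (499 / 1000) (1 / 10000) (by norm_num) (by norm_num)
    (by norm_num)
  obtain ⟨X2, h2⟩ := hmass (499 / 1000) (501 / 1000) (1 / 10000) (by norm_num) (by norm_num)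
    (by norm_num)
  have ev : ∀ᶠ X : ℕ in atTop, (X : ℝ) ^ (-ε) ≤ 1 / 1000 ∧ (X : ℝ) ^ (-(1 / 500 : ℝ)) ≤ 1 / 1000 ∧
      1 ≤ X ∧ X1 ≤ X ∧ X2 ≤ X := by
    have e1 : ∀ᶠ x : ℝ in atTop, x ^ (-ε) < 1 / 1000 :=
      (tendsto_rpow_neg_atTop hε).eventually_lt_const (by norm_num)
    have e2 : ∀ᶠ x : ℝ in atTop, x ^ (-(1 / 500 : ℝ)) < 1 / 1000 :=
      (tendsto_rpow_neg_atTop (by norm_num)).eventually_lt_const (by norm_num)
    have e1' := tendsto_natCast_atTop_atTop (R := ℝ) |>.eventually e1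
    have e2' := tendsto_natCast_atTop_atTop (R := ℝ) |>.eventually e2
    filter_upwards [e1', e2', eventually_ge_atTop 1, eventually_ge_atTop X1,
      eventually_ge_atTop X2] with X a1 a2 a3 a4 a5
    exact ⟨a1.le, a2.le, a3, a4, a5⟩
  obtain ⟨X0, hX0⟩ := eventually_atTop.1 ev
  refine ⟨X0, fun X hX => ?_⟩
  obtain ⟨g1, g2, g3, g4, g5⟩ := hX0 X hX
  set x : ℝ := (X : ℝ) with hx
  have hx1 : (1 : ℝ) ≤ x := by
    rw [hx]
    exact_mod_cast g3
  have hx0 : (0 : ℝ) < x := by linarith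
  set P := ⌊x ^ (1 / 4 : ℝ)⌋₊ with hP
  set H := ⌊x ^ (1 / 4 - ε : ℝ)⌋₊ with hH
  set s := H - 1 with hs
  -- bounds for `s` and `p`
  have hsx : (s : ℝ) ≤ x ^ (1 / 4 : ℝ) * (1 / 1000) := by
    have a1 : (s : ℝ) ≤ H := by
      rw [hs]
      exact_mod_cast Nat.sub_le _ _
    have a2 : (H : ℝ) ≤ x ^ (1 / 4 - ε : ℝ) := Nat.floor_le (by positivity)
    have a3 : x ^ (1 / 4 - ε : ℝ) = x ^ (1 / 4 : ℝ) * x ^ (-ε) := by
      rw [← Real.rpow_add hx0]
      ring_nf
    have a4 : x ^ (1 / 4 : ℝ) * x ^ (-ε) ≤ x ^ (1 / 4 : ℝ) * (1 / 1000) :=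
      mul_le_mul_of_nonneg_left g1 (by positivity)
    linarith
  have hpx : ∀ p : ℕ, P < p → x ^ (1 / 4 : ℝ) < p := fun p hp => Nat.lt_of_floor_lt hp
  have hsp : ∀ p : ℕ, P < p → (s : ℝ) ≤ p / 1000 := fun p hp => by
    have := hpx p hp
    linarith
  have hsp' : ∀ p : ℕ, P < p → s < p := fun p hp => by
    have a1 := hsp p hp
    have a2 : (0 : ℝ) < p := lt_of_le_of_lt (by positivity) (hpx p hp)
    have a3 : (s : ℝ) < p := by linarith
    exact_mod_cast a3
  -- the sets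
  let B : ℕ → Finset ℕ := fun p =>
    (Ico X (2 * X)).filter (fun y => p ^ 2 ≤ 3 * X ∧ (y + s) % p ^ 2 < p + s)
  have hBle : ∀ p : ℕ, p.Prime → P < p → p ^ 2 ≤ 3 * X →
      ((B p).card : ℝ) ≤ 1001 / 1000 * (x + (p : ℝ) ^ 2) / p := by
    intro p hp hPp hp3
    have a1 : (B p).card ≤
        ((Ico X (2 * X)).filter (fun y => (y + s) % p ^ 2 < p + s)).card := by
      refine Finset.card_le_card fun y hy => ?_
      rw [Finset.mem_filter] at hy ⊢
      exact ⟨hy.1, hy.2.2⟩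
    have a2 := base_cnt hcnt X s p hp (hsp' p hPp)
    have a3 : (0 : ℝ) < p := by exact_mod_cast hp.pos
    have a4 : ((p : ℝ) + s) * (x + (p : ℝ) ^ 2) / (p : ℝ) ^ 2 ≤
        1001 / 1000 * (x + (p : ℝ) ^ 2) / p := by
      rw [div_le_div_iff₀ (by positivity) a3]
      have a5 : (p : ℝ) + s ≤ 1001 / 1000 * p := by
        have := hsp p hPp
        linarith
      have a6 : ((p : ℝ) + s) * ((x + (p : ℝ) ^ 2) * p) ≤
          1001 / 1000 * p * ((x + (p : ℝ) ^ 2) * p) :=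
        mul_le_mul_of_nonneg_right a5 (by positivity)
      calc ((p : ℝ) + s) * (x + (p : ℝ) ^ 2) * p = ((p : ℝ) + s) * ((x + (p : ℝ) ^ 2) * p) := by
            ring
        _ ≤ 1001 / 1000 * p * ((x + (p : ℝ) ^ 2) * p) := a6
        _ = 1001 / 1000 * (x + (p : ℝ) ^ 2) * (p : ℝ) ^ 2 := by ring
    have a7 : ((B p).card : ℝ) ≤
        (((Ico X (2 * X)).filter (fun y => (y + s) % p ^ 2 < p + s)).card : ℝ) := by
      exact_mod_cast a1
    exact a7.trans (a2.trans a4)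
  let R1 : Finset ℕ := (Ioc ⌊x ^ (1 / 4 : ℝ)⌋₊ ⌊x ^ (499 / 1000 : ℝ)⌋₊).filter Nat.Prime
  let R2 : Finset ℕ := (Ioc ⌊x ^ (499 / 1000 : ℝ)⌋₊ ⌊x ^ (501 / 1000 : ℝ)⌋₊).filter Nat.Prime
  have hb1 : ∀ p ∈ R1, ((B p).card : ℝ) ≤ 1001 / 1000 * (1001 / 1000) * x * (1 / p) := by
    intro p hp
    rw [Finset.mem_filter, Finset.mem_Ioc] at hp
    obtain ⟨⟨b1, b2⟩, b3⟩ := hp
    have a3 : (0 : ℝ) < p := by exact_mod_cast b3.pos
    have b4 : (p : ℝ) ≤ x ^ (499 / 1000 : ℝ) :=
      (Nat.cast_le.2 b2).trans (Nat.floor_le (by positivity))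
    have b5 : (p : ℝ) ^ 2 ≤ x * (1 / 1000) := by
      calc (p : ℝ) ^ 2 ≤ (x ^ (499 / 1000 : ℝ)) ^ 2 := pow_le_pow_left₀ a3.le b4 2
        _ = x * x ^ (-(1 / 500 : ℝ)) := by
            rw [← Real.rpow_natCast, ← Real.rpow_mul hx0.le]
            nth_rw 2 [← Real.rpow_one x]
            rw [← Real.rpow_add hx0]
            norm_num
        _ ≤ x * (1 / 1000) := mul_le_mul_of_nonneg_left g2 hx0.le
    have b6 : p ^ 2 ≤ 3 * X := by
      have : (p : ℝ) ^ 2 ≤ 3 * x := by linarith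
      rw [hx] at this
      exact_mod_cast this
    refine (hBle p b3 b1 b6).trans ?_
    rw [mul_one_div, div_le_div_iff_of_pos_right a3]
    nlinarith
  have hb2 : ∀ p ∈ R2, ((B p).card : ℝ) ≤ 8 * x * (1 / p) := by
    intro p hp
    rw [Finset.mem_filter, Finset.mem_Ioc] at hp
    obtain ⟨⟨b1, b2⟩, b3⟩ := hp
    have a3 : (0 : ℝ) < p := by exact_mod_cast b3.pos
    by_cases hp3 : p ^ 2 ≤ 3 * X
    · have b1' : P < p := by
        refine lt_of_le_of_lt ?_ b1
        exact Nat.floor_le_floor (Real.rpow_le_rpow_of_exponent_le hx1 (by norm_num))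
      refine (hBle p b3 b1' hp3).trans ?_
      have b7 : (p : ℝ) ^ 2 ≤ 3 * x := by rw [hx]; exact_mod_cast hp3
      rw [mul_one_div, div_le_div_iff_of_pos_right a3]
      nlinarith
    · have : B p = ∅ := by
        rw [Finset.filter_eq_empty_iff]
        intro y _ hy
        exact hp3 hy.1
      rw [this, Finset.card_empty, Nat.cast_zero]
      positivity
  -- covering of the bad set
  have hcov : (Ico X (2 * X)) ⊆ Good X P H ∪ (R1.biUnion B ∪ R2.biUnion B) := by
    intro y hy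
    by_cases hg : y ∈ Good X P H
    · exact Finset.mem_union_left _ hg
    · refine Finset.mem_union_right _ ?_
      have hg' : ∃ p : ℕ, p.Prime ∧ P < p ∧ p ^ 2 ≤ 3 * X ∧ ∃ j < H, (y + j) % p ^ 2 < p := by
        by_contra hcon
        apply hg
        unfold Good
        rw [Finset.mem_filter]
        refine ⟨hy, fun p hp hPp hp3 j hj => ?_⟩
        by_contra hlt
        push Not at hlt
        exact hcon ⟨p, hp, hPp, hp3, j, hj, hlt⟩
      obtain ⟨p, hp, hPp, hp3, j, hj, hlt⟩ := hg'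
      have hyB : y ∈ B p := by
        refine Finset.mem_filter.2 ⟨hy, hp3, ?_⟩
        refine base_hit y j s p hp ?_ (hsp' p hPp) hlt
        omega
      by_cases hr : p ≤ ⌊x ^ (499 / 1000 : ℝ)⌋₊
      · refine Finset.mem_union_left _ (Finset.mem_biUnion.2 ⟨p, ?_, hyB⟩)
        exact Finset.mem_filter.2 ⟨Finset.mem_Ioc.2 ⟨hPp, hr⟩, hp⟩
      · refine Finset.mem_union_right _ (Finset.mem_biUnion.2 ⟨p, ?_, hyB⟩)
        refine Finset.mem_filter.2 ⟨Finset.mem_Ioc.2 ⟨not_le.1 hr, ?_⟩, hp⟩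
        refine Nat.le_floor ?_
        have b7 : (p : ℝ) ^ 2 ≤ 3 * x := by rw [hx]; exact_mod_cast hp3
        have b8 : (1000 : ℝ) ≤ x ^ (1 / 500 : ℝ) := by
          rw [Real.rpow_neg hx0.le] at g2
          have b9 : 0 < x ^ (1 / 500 : ℝ) := by positivity
          rw [inv_le_comm₀ b9 (by norm_num)] at g2
          norm_num at g2 ⊢
          exact g2
        have b10 : 3 * x ≤ (x ^ (501 / 1000 : ℝ)) ^ 2 := by
          have c1 : (x ^ (501 / 1000 : ℝ)) ^ 2 = x ^ (1 / 500 : ℝ) * x := by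
            rw [← Real.rpow_natCast, ← Real.rpow_mul hx0.le]
            nth_rw 3 [← Real.rpow_one x]
            rw [← Real.rpow_add hx0]
            norm_num
          rw [c1]
          nlinarith
        exact (pow_le_pow_iff_left₀ (by positivity) (by positivity) two_ne_zero).1
          (b7.trans b10)
  have hcard : ((Ico X (2 * X)).card : ℝ) ≤ ((Good X P H).card : ℝ) +
      (∑ p ∈ R1, ((B p).card : ℝ) + ∑ p ∈ R2, ((B p).card : ℝ)) := by
    have c1 := Finset.card_le_card hcov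
    have c2 := Finset.card_union_le (Good X P H) (R1.biUnion B ∪ R2.biUnion B)
    have c3 := Finset.card_union_le (R1.biUnion B) (R2.biUnion B)
    have c4 := Finset.card_biUnion_le (s := R1) (t := B)
    have c5 := Finset.card_biUnion_le (s := R2) (t := B)
    have c6 : (Ico X (2 * X)).card ≤ (Good X P H).card +
        (∑ p ∈ R1, (B p).card + ∑ p ∈ R2, (B p).card) := by omega
    exact_mod_cast c6
  have hX' : ((Ico X (2 * X)).card : ℝ) = x := by
    rw [Nat.card_Ico]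
    have : 2 * X - X = X := by omega
    rw [this]
  have s1 : ∑ p ∈ R1, ((B p).card : ℝ) ≤ 1001 / 1000 * (1001 / 1000) * x *
      (Real.log (499 / 1000 / (1 / 4)) + 1 / 10000) := by
    refine (Finset.sum_le_sum hb1).trans ?_
    rw [← Finset.mul_sum]
    exact mul_le_mul_of_nonneg_left (h1 X g4) (by positivity)
  have s2 : ∑ p ∈ R2, ((B p).card : ℝ) ≤ 8 * x *
      (Real.log (501 / 1000 / (499 / 1000)) + 1 / 10000) := by
    refine (Finset.sum_le_sum hb2).trans ?_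
    rw [← Finset.mul_sum]
    exact mul_le_mul_of_nonneg_left (h2 X g5) (by positivity)
  rw [hX'] at hcard
  have hnum := mul_le_mul_of_nonneg_left base_num hx0.le
  nlinarith

end Pool.Agent.H184R5.EP
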